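import Pool.Agent.Helper68.QC.St3

/-!
# Project QCM (MP_d112a4_gt), module AFF: injective entire functions are affine
-/

set_option autoImplicit false

open MeasureTheory Set Filter Topology Complex
open scoped ContDiff ComplexConjugate ENNReal

namespace Pool.Agent.Helper45.QCM

open Pool.Agent.Helper68.QC

/-- entire functions of growth at most `m` are polynomials -/
private lemma poly_of_growth (m : ℕ) : ∀ q : ℂ → ℂ, Differentiable ℂ q →
    (∃ C : ℝ, ∀ z, ‖q z‖ ≤ C * (1 + ‖z‖) ^ m) → ∃ p : Polynomial ℂ, ∀ z, q z = p.eval z := by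
  induction m with
  | zero =>
    intro q hq hC
    obtain ⟨C, hC⟩ := hC
    refine ⟨Polynomial.C (q 0), fun z => ?_⟩
    rw [Polynomial.eval_C]
    refine hq.apply_eq_apply_of_bounded ?_ z 0
    refine isBounded_iff_forall_norm_le.2 ⟨C, ?_⟩
    rintro _ ⟨z, rfl⟩
    simpa using hC z
  | succ m ih =>
    intro q hq hC
    obtain ⟨C, hC⟩ := hC
    have hd : Differentiable ℂ (dslope q 0) := by
      rw [← differentiableOn_univ, Complex.differentiableOn_dslope univ_mem]
      exact hq.differentiableOn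
    have hC0 : 0 ≤ C := by
      have := (norm_nonneg _).trans (hC 0)
      simpa using this
    obtain ⟨C', hC'⟩ := (isCompact_closedBall (0 : ℂ) 1).exists_bound_of_continuousOn
      hd.continuous.continuousOn
    have hC'0 : 0 ≤ C' := (norm_nonneg _).trans (hC' 0 (by simp))
    have hgr : ∀ z, ‖dslope q 0 z‖ ≤ (C' + 4 * C) * (1 + ‖z‖) ^ m := by
      intro z
      have h1 : (1 : ℝ) ≤ (1 + ‖z‖) ^ m := one_le_pow₀ (by linarith [norm_nonneg z])
      rcases le_or_gt ‖z‖ 1 with hz | hz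
      · have h2 := hC' z (by simpa using hz)
        nlinarith
      · have h2 := sub_smul_dslope q 0 z
        rw [sub_zero, smul_eq_mul] at h2
        have h3 : ‖z‖ * ‖dslope q 0 z‖ ≤ ‖q z‖ + ‖q 0‖ := by
          rw [← norm_mul, h2]
          exact norm_sub_le _ _
        have h4 := hC z
        have h5 : ‖q 0‖ ≤ C := by simpa using hC 0
        have h6 : C ≤ C * (1 + ‖z‖) ^ (m + 1) :=
          le_mul_of_one_le_right hC0 (one_le_pow₀ (by linarith))
        have h7 : (1 + ‖z‖) ^ (m + 1) ≤ 2 * ‖z‖ * (1 + ‖z‖) ^ m := by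
          rw [pow_succ]
          nlinarith
        have h8 : ‖z‖ * ‖dslope q 0 z‖ ≤ ‖z‖ * (4 * C * (1 + ‖z‖) ^ m) := by
          have := mul_le_mul_of_nonneg_left h7 hC0
          nlinarith
        have h9 := le_of_mul_le_mul_left h8 (by linarith)
        nlinarith
    obtain ⟨p, hp⟩ := ih (dslope q 0) hd ⟨C' + 4 * C, hgr⟩
    refine ⟨Polynomial.C (q 0) + Polynomial.X * p, fun z => ?_⟩
    rw [Polynomial.eval_add, Polynomial.eval_C, Polynomial.eval_mul, Polynomial.eval_X, ← hp]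
    have h1 := sub_smul_dslope q 0 z
    rw [sub_zero, smul_eq_mul] at h1
    rw [h1]
    ring

theorem pAFF : StAFF := by
  intro f hf hinj
  obtain ⟨F, hF⟩ : ∃ F : ℂ → ℂ, F = fun z => f z - f 0 := ⟨_, rfl⟩
  have hFd : Differentiable ℂ F := by
    rw [hF]
    exact hf.sub_const _
  have hF0 : F 0 = 0 := by
    rw [hF]
    simp
  have hFi : Function.Injective F := by
    intro a b hab
    rw [hF] at hab
    exact hinj (sub_left_injective hab)
  have hFne : ∀ z, z ≠ 0 → F z ≠ 0 := by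
    intro z hz h
    exact hz (hFi (h.trans hF0.symm))
  obtain ⟨ε, hε, hlow⟩ : ∃ ε : ℝ, 0 < ε ∧ ∀ z, 1 ≤ ‖z‖ → ε ≤ ‖F z‖ := by
    have han : AnalyticOnNhd ℂ F univ := fun z _ => hFd.analyticAt z
    rcases han.is_constant_or_isOpen isPreconnected_univ with ⟨w, hw⟩ | ho
    · exfalso
      exact one_ne_zero (hFi ((hw 1 (mem_univ _)).trans (hw 0 (mem_univ _)).symm))
    · have h1 := ho (Metric.ball 0 1) (subset_univ _) Metric.isOpen_ball
      have h2 : (0 : ℂ) ∈ F '' Metric.ball 0 1 := ⟨0, by simp, hF0⟩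
      obtain ⟨ε, hε, hb⟩ := Metric.isOpen_iff.1 h1 0 h2
      refine ⟨ε, hε, fun z hz => ?_⟩
      by_contra h3
      push Not at h3
      obtain ⟨y, hy, hyz⟩ := hb (mem_ball_zero_iff.2 h3)
      rw [mem_ball_zero_iff] at hy
      rw [hFi hyz] at hy
      linarith
  -- factorisation at zero
  obtain ⟨n, g, hg, hg0, hgF⟩ : ∃ (n : ℕ) (g : ℂ → ℂ), AnalyticAt ℂ g 0 ∧ g 0 ≠ 0 ∧
      ∀ᶠ z in 𝓝 (0 : ℂ), F z = (z - 0) ^ n • g z := by
    rw [(hFd.analyticAt 0).exists_eventuallyEq_pow_smul_nonzero_iff]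
    intro h
    obtain ⟨δ, hδ, hd⟩ := Metric.eventually_nhds_iff.1 h
    have h1 : ((δ / 2 : ℝ) : ℂ) ≠ 0 := by
      rw [Complex.ofReal_ne_zero]
      positivity
    refine hFne _ h1 (hd ?_)
    rw [dist_zero_right, Complex.norm_real, Real.norm_of_nonneg (by positivity)]
    linarith
  simp only [sub_zero, smul_eq_mul] at hgF
  obtain ⟨h, hh⟩ : ∃ h : ℂ → ℂ, h = Function.update (fun z => F z / z ^ n) 0 (g 0) := ⟨_, rfl⟩
  have hh0 : h 0 = g 0 := by rw [hh]; simp
  have hhz : ∀ z, z ≠ 0 → h z = F z / z ^ n := by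
    intro z hz
    rw [hh, Function.update_of_ne hz]
  have hhne : ∀ z, h z ≠ 0 := by
    intro z
    by_cases hz : z = 0
    · rw [hz, hh0]
      exact hg0
    · rw [hhz z hz]
      exact div_ne_zero (hFne z hz) (pow_ne_zero _ hz)
  have hhd : Differentiable ℂ h := by
    intro z
    by_cases hz : z = 0
    · rw [hz]
      refine hg.differentiableAt.congr_of_eventuallyEq ?_
      filter_upwards [hgF] with x hx
      by_cases hx0 : x = 0
      · rw [hx0, hh0]
      · rw [hhz x hx0, hx]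
        field_simp
    · have h1 : DifferentiableAt ℂ (fun z => F z / z ^ n) z :=
        (hFd z).div (differentiableAt_id.pow n) (pow_ne_zero _ hz)
      refine h1.congr_of_eventuallyEq ?_
      filter_upwards [isOpen_ne.mem_nhds hz] with x hx
      exact hhz x hx
  have hqd : Differentiable ℂ (fun z => (h z)⁻¹) := hhd.inv hhne
  obtain ⟨C', hC'⟩ := (isCompact_closedBall (0 : ℂ) 1).exists_bound_of_continuousOn
    hqd.continuous.continuousOn
  have hC'0 : 0 ≤ C' := (norm_nonneg _).trans (hC' 0 (by simp))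
  obtain ⟨p, hp⟩ := poly_of_growth n (fun z => (h z)⁻¹) hqd ⟨C' + 1 / ε, fun z => by
    have h1 : (1 : ℝ) ≤ (1 + ‖z‖) ^ n := one_le_pow₀ (by linarith [norm_nonneg z])
    have hε' : 0 < 1 / ε := by positivity
    rcases le_or_gt ‖z‖ 1 with hz | hz
    · have h2 := hC' z (by simpa using hz)
      have h3 : C' ≤ C' * (1 + ‖z‖) ^ n := le_mul_of_one_le_right hC'0 h1
      have h4 : 0 ≤ 1 / ε * (1 + ‖z‖) ^ n := by positivity
      calc ‖(h z)⁻¹‖ ≤ C' := h2
        _ ≤ (C' + 1 / ε) * (1 + ‖z‖) ^ n := by rw [add_mul]; linarith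
    · have hz0 : z ≠ 0 := by
        rintro rfl
        rw [norm_zero] at hz
        linarith
      have h2 := hlow z hz.le
      have hFz : 0 < ‖F z‖ := lt_of_lt_of_le hε h2
      have h3 : ‖(h z)⁻¹‖ = ‖z‖ ^ n / ‖F z‖ := by
        rw [hhz z hz0, norm_inv, norm_div, norm_pow, inv_div]
      have h4 : ‖z‖ ^ n ≤ (1 + ‖z‖) ^ n := pow_le_pow_left₀ (norm_nonneg _) (by linarith) n
      show ‖(h z)⁻¹‖ ≤ _
      rw [h3]
      calc ‖z‖ ^ n / ‖F z‖ ≤ (1 + ‖z‖) ^ n / ε :=
            div_le_div₀ (by positivity) h4 hε h2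
        _ = 1 / ε * (1 + ‖z‖) ^ n := by ring
        _ ≤ (C' + 1 / ε) * (1 + ‖z‖) ^ n := by
            rw [add_mul]
            have : 0 ≤ C' * (1 + ‖z‖) ^ n := by positivity
            linarith⟩
  have hdeg : p.degree = 0 := by
    by_contra hne
    obtain ⟨x, hx⟩ := IsAlgClosed.exists_root p hne
    have h1 := hp x
    rw [Polynomial.IsRoot.def] at hx
    rw [hx] at h1
    exact inv_ne_zero (hhne x) h1
  obtain ⟨c, hc⟩ : ∃ c, p = Polynomial.C c := ⟨_, Polynomial.eq_C_of_degree_le_zero hdeg.le⟩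
  have hc1 : ∀ z, (h z)⁻¹ = c := by
    intro z
    have h1 := hp z
    rw [hc, Polynomial.eval_C] at h1
    exact h1
  have hc0 : c ≠ 0 := by
    rw [← hc1 0]
    exact inv_ne_zero (hhne 0)
  have hform : ∀ z, z ≠ 0 → F z = c⁻¹ * z ^ n := by
    intro z hz
    have h1 := hc1 z
    rw [hhz z hz, inv_div] at h1
    have h2 := hFne z hz
    rw [div_eq_iff h2] at h1
    rw [h1, ← mul_assoc, inv_mul_cancel₀ hc0, one_mul]
  have hn : n = 1 := by
    rcases Nat.lt_or_ge n 2 with h1 | h1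
    · interval_cases n
      · exfalso
        have h2 := hform 1 one_ne_zero
        have h3 := hform 2 two_ne_zero
        rw [pow_zero] at h2 h3
        have h4 := hFi (h2.trans h3.symm)
        norm_num at h4
      · rfl
    · exfalso
      have hpr := Complex.isPrimitiveRoot_exp n (by omega)
      obtain ⟨ζ, hζ⟩ : ∃ ζ, ζ = Complex.exp (2 * Real.pi * I / n) := ⟨_, rfl⟩
      rw [← hζ] at hpr
      have h2 : ζ ^ n = 1 := hpr.pow_eq_one
      have h3 : ζ ≠ 1 := hpr.ne_one (by omega)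
      have h4 : ζ ≠ 0 := by
        rintro rfl
        rw [zero_pow (by omega)] at h2
        exact zero_ne_one h2
      apply h3
      apply hFi
      rw [hform ζ h4, hform 1 one_ne_zero, h2, one_pow]
  refine ⟨c⁻¹, f 0, inv_ne_zero hc0, fun z => ?_⟩
  by_cases hz : z = 0
  · rw [hz]
    ring
  · have h1 := hform z hz
    rw [hn, pow_one, hF] at h1
    simp only at h1
    linear_combination h1

end Pool.Agent.Helper45.QCM
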