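import Pool.Agent.Helper68.QC.St3

/-!
# Project QCM (MP_d112a4_gt), module FA0: factorisation
-/

set_option autoImplicit false

open MeasureTheory Set Filter Topology Complex
open scoped ContDiff ComplexConjugate ENNReal

namespace Pool.Agent.Helper45.QCM

open Pool.Agent.Helper68.QC

private lemma cont_aux {U : Set ℂ} (hU : IsOpen U) {g ψ : ℂ → ℂ} (hg : ContinuousOn g U)
    (hψ : Continuous ψ) (hs : tsupport ψ ⊆ U) : Continuous fun z => g z * ψ z := by
  rw [continuous_iff_continuousAt]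
  intro z
  by_cases hz : z ∈ tsupport ψ
  · exact (hg.continuousAt (hU.mem_nhds (hs hz))).mul hψ.continuousAt
  · have h0 : ψ =ᶠ[𝓝 z] 0 := notMem_tsupport_iff_eventuallyEq.1 hz
    refine ContinuousAt.congr (f := fun _ => (0 : ℂ)) continuousAt_const ?_
    filter_upwards [h0] with x hx
    simp [hx]

theorem pFA0 (hCHR : StCHR) (hIBC : StIBC) (hWEY : StWEY) : StFA0 := by
  intro k w a b μ hQ hμ U f hU hS
  obtain ⟨c, d, hf, hdc⟩ := hS
  have hwU : IsOpen (w '' U) := w.isOpenMap U hU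
  have hcont : ContinuousOn (fun ζ => f (w.symm ζ)) (w '' U) := by
    refine hf.cont.comp w.symm.continuous.continuousOn ?_
    rintro _ ⟨z, hz, rfl⟩
    rwa [w.symm_apply_apply]
  refine hWEY _ _ hwU hcont fun φ hφ => ?_
  have hu := hCHR univ univ w a b φ isOpen_univ isOpen_univ hQ.wd (mapsTo_univ _ _)
    hφ.smooth.contDiffOn
  have hK : IsCompact (w ⁻¹' tsupport φ) := by
    rw [← w.image_symm]
    exact hφ.cpt.isCompact.image w.symm.continuous
  have hKU : w ⁻¹' tsupport φ ⊆ U := by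
    intro z hz
    obtain ⟨y, hy, hyz⟩ := hφ.sub hz
    rwa [← w.injective hyz]
  have h1 := hIBC U f c d (fun z => φ (w z)) _ _ w a b (w ⁻¹' (tsupport φ)) hU hf
    (hu.mono (subset_univ _)) (hQ.wd.mono (subset_univ _)) hK hKU
    (fun z _ hz => image_eq_zero_of_notMem_tsupport hz)
  have h2 : ∫ z in U, φ (w z) * (c z * b z - d z * a z) = 0 := by
    refine integral_eq_zero_of_ae ?_
    filter_upwards [hdc, ae_restrict_of_ae hμ] with z hz1 hz2
    show φ (w z) * (c z * b z - d z * a z) = 0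
    rw [hz1, hz2]
    ring
  rw [h2, neg_zero] at h1
  have hG : Continuous fun ζ => f (w.symm ζ) * dzb φ ζ :=
    cont_aux hwU hcont (continuous_dzb hφ.smooth) hφ.hdzb.sub
  have hGc : HasCompactSupport fun ζ => f (w.symm ζ) * dzb φ ζ := hφ.hdzb.cpt.mul_left
  have h3 := hQ.cv _ hG hGc
  rw [← h3]
  have h4 : ∫ z, f (w.symm (w z)) * dzb φ (w z) * (jc a b z : ℂ) =
      ∫ z in U, f (w.symm (w z)) * dzb φ (w z) * (jc a b z : ℂ) := by
    refine (setIntegral_eq_integral_of_forall_compl_eq_zero fun z hz => ?_).symm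
    have h5 : w z ∉ tsupport φ := fun h => hz (hKU h)
    rw [dzb_eq_zero h5]
    ring
  rw [h4, ← neg_eq_zero, ← integral_neg, ← h1]
  refine integral_congr_ae (Eventually.of_forall fun z => ?_)
  simp only [w.symm_apply_apply, jc]
  have e1 : ((‖a z‖ ^ 2 - ‖b z‖ ^ 2 : ℝ) : ℂ) = a z * conj (a z) - b z * conj (b z) := by
    rw [Complex.mul_conj, Complex.mul_conj, Complex.normSq_eq_norm_sq, Complex.normSq_eq_norm_sq]
    push_cast
    ring
  rw [e1]
  ring

end Pool.Agent.Helper45.QCM
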