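import Pool.Agent.Helper68.QC.St3

/-!
# Project QCM (MP_d112a4_gt), module LIM: compactness for equicontinuous homeomorphisms
-/

set_option autoImplicit false

open MeasureTheory Set Filter Topology Complex
open scoped ContDiff ComplexConjugate ENNReal

namespace Pool.Agent.Helper45.QCM

open Pool.Agent.Helper68.QC

private lemma lim_aux {ι : Type} (F : Ultrafilter ι) (f : ι → ℂ → ℂ)
    (hb : ∀ R : ℝ, ∃ M : ℝ, ∀ i z, ‖z‖ ≤ R → ‖f i z‖ ≤ M)
    (he : ∀ R : ℝ, ∀ ε > 0, ∃ δ > 0, ∀ i p q, ‖p‖ ≤ R → ‖q‖ ≤ R → ‖p - q‖ ≤ δ →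
      ‖f i p - f i q‖ ≤ ε) :
    ∃ g : ℂ → ℂ, Continuous g ∧ (∀ z, Tendsto (fun i => f i z) F (𝓝 (g z))) ∧
      ∀ R : ℝ, TendstoUniformlyOn f g F (Metric.closedBall 0 R) := by
  have h1 : ∀ z, ∃ x, Tendsto (fun i => f i z) F (𝓝 x) := by
    intro z
    obtain ⟨M, hM⟩ := hb ‖z‖
    have h2 : (F.map (fun i => f i z) : Filter ℂ) ≤ 𝓟 (Metric.closedBall (0 : ℂ) M) := by
      rw [le_principal_iff]
      refine Ultrafilter.mem_map.2 ?_
      refine Filter.Eventually.of_forall fun i => ?_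
      exact mem_closedBall_zero_iff.2 (hM i z le_rfl)
    obtain ⟨x, -, hx⟩ := (isCompact_closedBall (0 : ℂ) M).ultrafilter_le_nhds _ h2
    exact ⟨x, hx⟩
  choose g hg using h1
  have hge : ∀ R : ℝ, ∀ ε > 0, ∃ δ > 0, ∀ p q, ‖p‖ ≤ R → ‖q‖ ≤ R → ‖p - q‖ ≤ δ →
      ‖g p - g q‖ ≤ ε := by
    intro R ε hε
    obtain ⟨δ, hδ, hd⟩ := he R ε hε
    refine ⟨δ, hδ, fun p q hp hq hpq => ?_⟩
    exact le_of_tendsto ((hg p).sub (hg q)).norm
      (Filter.Eventually.of_forall fun i => hd i p q hp hq hpq)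
  refine ⟨g, ?_, hg, ?_⟩
  · rw [Metric.continuous_iff]
    intro z ε hε
    obtain ⟨δ, hδ, hd⟩ := hge (‖z‖ + 1) (ε / 2) (half_pos hε)
    refine ⟨min δ 1, lt_min hδ one_pos, fun a ha => ?_⟩
    rw [dist_eq_norm] at ha ⊢
    have ha1 : ‖a - z‖ < δ := lt_of_lt_of_le ha (min_le_left _ _)
    have ha2 : ‖a - z‖ < 1 := lt_of_lt_of_le ha (min_le_right _ _)
    have ha3 : ‖a‖ ≤ ‖z‖ + 1 := by
      have := norm_add_le (a - z) z
      rw [sub_add_cancel] at this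
      linarith
    have := hd a z ha3 (by linarith) ha1.le
    linarith
  · intro R
    rw [Metric.tendstoUniformlyOn_iff]
    intro ε hε
    obtain ⟨δ, hδ, hd⟩ := he R (ε / 4) (by linarith)
    obtain ⟨δ', hδ', hd'⟩ := hge R (ε / 4) (by linarith)
    obtain ⟨t, htK, htf, htc⟩ := (isCompact_closedBall (0 : ℂ) R).finite_cover_balls
      (lt_min hδ hδ')
    have h3 : ∀ᶠ i in (F : Filter ι), ∀ c ∈ t, ‖f i c - g c‖ < ε / 4 := by
      rw [Filter.eventually_all_finite htf]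
      intro c _
      have h4 := (hg c)
      rw [Metric.tendsto_nhds] at h4
      filter_upwards [h4 (ε / 4) (by linarith)] with i hi
      rwa [dist_eq_norm] at hi
    filter_upwards [h3] with i hi z hz
    obtain ⟨c, hc, hzc⟩ : ∃ c ∈ t, z ∈ Metric.ball c (min δ δ') := by
      have := htc hz
      simpa only [mem_iUnion, exists_prop] using this
    rw [Metric.mem_ball, dist_eq_norm] at hzc
    have hcK := htK hc
    rw [mem_closedBall_zero_iff] at hcK hz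
    have a1 := hd i z c hz hcK (lt_of_lt_of_le hzc (min_le_left _ _)).le
    have a2 := hd' z c hz hcK (lt_of_lt_of_le hzc (min_le_right _ _)).le
    have a3 := hi c hc
    rw [dist_eq_norm]
    have e : g z - f i z = (g z - g c) - (f i c - g c) - (f i z - f i c) := by ring
    rw [e]
    have b1 := norm_sub_le (g z - g c - (f i c - g c)) (f i z - f i c)
    have b2 := norm_sub_le (g z - g c) (f i c - g c)
    linarith

private lemma comp_aux {ι : Type} (F : Ultrafilter ι) (f f' : ι → ℂ → ℂ)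
    (hb : ∀ R : ℝ, ∃ M : ℝ, ∀ i z, ‖z‖ ≤ R → ‖f' i z‖ ≤ M)
    (he : ∀ R : ℝ, ∀ ε > 0, ∃ δ > 0, ∀ i p q, ‖p‖ ≤ R → ‖q‖ ≤ R → ‖p - q‖ ≤ δ →
      ‖f i p - f i q‖ ≤ ε) (hi : ∀ i z, f i (f' i z) = z) {g g' : ℂ → ℂ}
    (hg : ∀ z, Tendsto (fun i => f i z) F (𝓝 (g z)))
    (hg' : ∀ z, Tendsto (fun i => f' i z) F (𝓝 (g' z))) (z : ℂ) : g (g' z) = z := by
  obtain ⟨M, hM⟩ := hb ‖z‖
  have h1 : ‖g' z‖ ≤ M := le_of_tendsto (hg' z).norm
    (Filter.Eventually.of_forall fun i => hM i z le_rfl)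
  rw [← sub_eq_zero, ← norm_le_zero_iff]
  refine le_of_forall_pos_le_add fun ε hε => ?_
  rw [zero_add]
  obtain ⟨δ, hδ, hd⟩ := he M ε hε
  have h2 : Tendsto (fun i => f i (g' z) - z) F (𝓝 (g (g' z) - z)) := (hg (g' z)).sub_const z
  refine le_of_tendsto h2.norm ?_
  have h3 := hg' z
  rw [Metric.tendsto_nhds] at h3
  filter_upwards [h3 δ hδ] with i hi2
  rw [dist_comm, dist_eq_norm] at hi2
  have h4 := hd i (g' z) (f' i z) h1 (hM i z le_rfl) hi2.le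
  rwa [hi] at h4

theorem pLIM : StLIM := by
  intro ι F W hb he
  obtain ⟨w, hwc, hw, hwu⟩ := lim_aux F (fun i z => W i z)
    (fun R => by
      obtain ⟨M, hM⟩ := hb R
      exact ⟨M, fun i z hz => (hM i z hz).1⟩)
    (fun R ε hε => by
      obtain ⟨δ, hδ, hd⟩ := he R ε hε
      exact ⟨δ, hδ, fun i p q hp hq hpq => (hd i p q hp hq hpq).1⟩)
  obtain ⟨v, hvc, hv, hvu⟩ := lim_aux F (fun i z => (W i).symm z)
    (fun R => by
      obtain ⟨M, hM⟩ := hb R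
      exact ⟨M, fun i z hz => (hM i z hz).2⟩)
    (fun R ε hε => by
      obtain ⟨δ, hδ, hd⟩ := he R ε hε
      exact ⟨δ, hδ, fun i p q hp hq hpq => (hd i p q hp hq hpq).2⟩)
  have h1 : ∀ z, w (v z) = z := comp_aux F (fun i z => W i z) (fun i z => (W i).symm z)
    (fun R => by
      obtain ⟨M, hM⟩ := hb R
      exact ⟨M, fun i z hz => (hM i z hz).2⟩)
    (fun R ε hε => by
      obtain ⟨δ, hδ, hd⟩ := he R ε hε
      exact ⟨δ, hδ, fun i p q hp hq hpq => (hd i p q hp hq hpq).1⟩)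
    (fun i z => (W i).apply_symm_apply z) hw hv
  have h2 : ∀ z, v (w z) = z := comp_aux F (fun i z => (W i).symm z) (fun i z => W i z)
    (fun R => by
      obtain ⟨M, hM⟩ := hb R
      exact ⟨M, fun i z hz => (hM i z hz).1⟩)
    (fun R ε hε => by
      obtain ⟨δ, hδ, hd⟩ := he R ε hε
      exact ⟨δ, hδ, fun i p q hp hq hpq => (hd i p q hp hq hpq).2⟩)
    (fun i z => (W i).symm_apply_apply z) hv hw
  exact ⟨⟨⟨w, v, h2, h1⟩, hwc, hvc⟩, fun R => ⟨hwu R, hvu R⟩⟩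

end Pool.Agent.Helper45.QCM
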