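import Pool.Agent.Helper68.QC.St2

/-!
# Project QCM (MP_d112a4_gt), module MO1: elementary properties of mollification
-/

set_option autoImplicit false

open MeasureTheory Set Filter Topology Complex
open scoped ContDiff ComplexConjugate ENNReal Convolution

namespace Pool.Agent.Helper45.QCM

open Pool.Agent.Helper68.QC

/-- the complex valued density -/
private noncomputable def rc (n : ℕ) : ℂ → ℂ := fun z => (rho n z : ℂ)

private lemma rc_smooth (n : ℕ) : ContDiff ℝ ∞ (rc n) :=
  ofRealCLM.contDiff.comp ((bmp n).contDiff_normed (μ := volume) (n := ⊤))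

private lemma rc_cpt (n : ℕ) : HasCompactSupport (rc n) :=
  ((bmp n).hasCompactSupport_normed (μ := volume)).comp_left (g := fun x : ℝ => (x : ℂ)) (by simp)

private lemma mol_eq (n : ℕ) (g : ℂ → ℂ) :
    mol n g = g ⋆[ContinuousLinearMap.mul ℝ ℂ, volume] (rc n) := by
  funext z
  unfold mol convolution
  refine integral_congr_ae (Eventually.of_forall fun y => ?_)
  show (rho n (z - y) : ℂ) * g y = g y * rc n (z - y)
  rw [mul_comm]
  rfl

private lemma fd_mol (n : ℕ) {g : ℂ → ℂ} (hg : LocallyIntegrable g volume) (z v : ℂ) :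
    fderiv ℝ (mol n g) z v = ∫ y, g y * fderiv ℝ (rc n) (z - y) v := by
  have h1 := (rc_cpt n).hasFDerivAt_convolution_right (ContinuousLinearMap.mul ℝ ℂ) hg
    ((rc_smooth n).of_le (by exact_mod_cast le_top)) z
  rw [← mol_eq] at h1
  rw [h1.fderiv]
  unfold convolution
  have h2 := ((rc_cpt n).fderiv ℝ).convolutionExists_right
    ((ContinuousLinearMap.mul ℝ ℂ).precompR ℂ) hg
    ((rc_smooth n).continuous_fderiv (by simp)) z
  rw [ContinuousLinearMap.integral_apply h2]
  rfl

private lemma int_fd (n : ℕ) {g : ℂ → ℂ} (hg : LocallyIntegrable g volume) (z v : ℂ) :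
    Integrable (fun y => g y * fderiv ℝ (rc n) (z - y) v) := by
  have h2 := ((rc_cpt n).fderiv ℝ).convolutionExists_right
    ((ContinuousLinearMap.mul ℝ ℂ).precompR ℂ) hg
    ((rc_smooth n).continuous_fderiv (by simp)) z
  exact h2.apply_continuousLinearMap v

private lemma fd_rc (n : ℕ) (z y v : ℂ) :
    fderiv ℝ (fun y => (rho n (z - y) : ℂ)) y v = - fderiv ℝ (rc n) (z - y) v := by
  have h1 : HasFDerivAt (fun y : ℂ => z - y) (-(ContinuousLinearMap.id ℝ ℂ)) y :=
    (hasFDerivAt_id y).const_sub z
  have h2 : HasFDerivAt (rc n) (fderiv ℝ (rc n) (z - y)) (z - y) :=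
    (((rc_smooth n).differentiable (by simp)) (z - y)).hasFDerivAt
  have h3 := h2.comp y h1
  have h4 : fderiv ℝ (fun y => (rho n (z - y) : ℂ)) y = _ := h3.fderiv
  rw [h4]
  simp

theorem pMO1 : StMO1 := by
  have hr : ∀ n : ℕ, (0 : ℝ) < 1 / ((n : ℝ) + 1) ∧ 1 / ((n : ℝ) + 1) ≤ 1 := by
    intro n
    have h : (0 : ℝ) < (n : ℝ) + 1 := by positivity
    refine ⟨by positivity, ?_⟩
    rw [div_le_one h]
    have : (0 : ℝ) ≤ n := Nat.cast_nonneg n
    linarith
  have hsup : ∀ (n : ℕ) (z : ℂ), rho n z ≠ 0 → ‖z‖ < 1 / ((n : ℝ) + 1) := by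
    intro n z h
    have h1 : z ∈ Function.support ((bmp n).normed volume) := h
    rw [(bmp n).support_normed_eq, mem_ball_zero_iff] at h1
    exact h1
  have hint : ∀ (n : ℕ) (z : ℂ), ∫ y, rho n (z - y) = 1 := by
    intro n z
    rw [integral_sub_left_eq_self (fun y => rho n y) volume z]
    exact (bmp n).integral_normed
  have hnn : ∀ (n : ℕ) (z : ℂ), 0 ≤ rho n z := fun n z => (bmp n).nonneg_normed z
  have hri : ∀ (n : ℕ) (z : ℂ), Integrable (fun y => rho n (z - y)) := by
    intro n z
    exact ((bmp n).integrable_normed (μ := volume)).comp_sub_left z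
  refine ⟨?_, ?_, ?_, ?_, ?_, ?_, ?_⟩
  · intro n g hg
    refine ⟨?_, ?_, ?_⟩
    · rw [mol_eq]
      exact (rc_cpt n).contDiff_convolution_right _ hg (rc_smooth n)
    · intro z
      unfold dz
      rw [fd_mol n hg, fd_mol n hg, ← integral_const_mul, ← integral_sub (int_fd n hg z 1)
        ((int_fd n hg z I).const_mul I), ← integral_div, ← integral_neg]
      refine integral_congr_ae (Eventually.of_forall fun y => ?_)
      simp only [fd_rc]
      ring
    · intro z
      unfold dzb
      rw [fd_mol n hg, fd_mol n hg, ← integral_const_mul, ← integral_add (int_fd n hg z 1)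
        ((int_fd n hg z I).const_mul I), ← integral_div, ← integral_neg]
      refine integral_congr_ae (Eventually.of_forall fun y => ?_)
      simp only [fd_rc]
      ring
  · intro n z
    have h1 : Function.support (fun y => (rho n (z - y) : ℂ)) ⊆
        Metric.closedBall z (1 / ((n : ℝ) + 1)) := by
      intro y hy
      have h2 : rho n (z - y) ≠ 0 := by
        intro h
        apply hy
        show (rho n (z - y) : ℂ) = 0
        rw [h]
        simp
      have h3 := hsup n _ h2
      rw [Metric.mem_closedBall, dist_comm, dist_eq_norm]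
      exact h3.le
    have h2 : tsupport (fun y => (rho n (z - y) : ℂ)) ⊆ Metric.closedBall z (1 / ((n : ℝ) + 1)) :=
      closure_minimal h1 Metric.isClosed_closedBall
    refine ⟨?_, ?_, h2⟩
    · exact (rc_smooth n).comp (contDiff_const.sub contDiff_id)
    · exact (isCompact_closedBall z _).of_isClosed_subset (isClosed_tsupport _) h2
  · intro n g C hC hg z
    unfold mol
    have h1 : ‖∫ y, (rho n (z - y) : ℂ) * g y‖ ≤ ∫ y, rho n (z - y) * C := by
      refine norm_integral_le_of_norm_le ((hri n z).mul_const C)
        (Eventually.of_forall fun y => ?_)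
      rw [norm_mul, Complex.norm_real, Real.norm_of_nonneg (hnn n _)]
      exact mul_le_mul_of_nonneg_left (hg y) (hnn n _)
    rw [integral_mul_const, hint, one_mul] at h1
    exact h1
  · intro n g R hg z hz
    unfold mol
    refine integral_eq_zero_of_ae (Eventually.of_forall fun y => ?_)
    show (rho n (z - y) : ℂ) * g y = 0
    by_cases h : rho n (z - y) = 0
    · rw [h]
      simp
    · have h1 := hsup n _ h
      have h2 : R < ‖y‖ := by
        have h3 : ‖z‖ ≤ ‖z - y‖ + ‖y‖ := by
          have := norm_add_le (z - y) y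
          rwa [sub_add_cancel] at this
        have := (hr n).2
        linarith
      rw [hg y h2, mul_zero]
  · intro n g h z hgh
    unfold mol
    refine integral_congr_ae (Eventually.of_forall fun y => ?_)
    show (rho n (z - y) : ℂ) * g y = (rho n (z - y) : ℂ) * h y
    by_cases h0 : rho n (z - y) = 0
    · rw [h0]
      simp
    · have h1 := hsup n _ h0
      rw [hgh y (by rw [norm_sub_rev]; exact h1.le)]
  · intro n g h c z hg hh
    have h1 : ∀ g : ℂ → ℂ, LocallyIntegrable g volume →
        Integrable (fun y => (rho n (z - y) : ℂ) * g y) := by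
      intro g hg
      have h2 := (rc_cpt n).convolutionExists_right (ContinuousLinearMap.mul ℝ ℂ) hg
        (rc_smooth n).continuous z
      refine (integrable_congr (Eventually.of_forall fun y => ?_)).1 h2
      show g y * rc n (z - y) = (rho n (z - y) : ℂ) * g y
      rw [mul_comm]
      rfl
    unfold mol
    rw [← integral_const_mul, ← integral_add (h1 g hg) ((h1 h hh).const_mul c)]
    refine integral_congr_ae (Eventually.of_forall fun y => ?_)
    simp only
    ring
  · intro n g v z
    unfold mol
    have h1 := integral_add_right_eq_self (μ := volume)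
      (fun y => (rho n (z + v - y) : ℂ) * g y) v
    rw [← h1]
    refine integral_congr_ae (Eventually.of_forall fun y => ?_)
    simp only
    rw [show z + v - (y + v) = z - y by ring]

end Pool.Agent.Helper45.QCM
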