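import Pool.Agent.Helper68.QC.St2

/-!
# Project QCM (MP_d112a4_gt), module MO2: convergence of mollifications
-/

set_option autoImplicit false

open MeasureTheory Set Filter Topology Complex
open scoped ContDiff ComplexConjugate ENNReal NNReal

namespace Pool.Agent.Helper45.QCM

open Pool.Agent.Helper68.QC

private lemma rho_nn (n : ℕ) (z : ℂ) : 0 ≤ rho n z := (bmp n).nonneg_normed z

private lemma rho_cont (n : ℕ) : Continuous (rho n) := (bmp n).continuous_normed

private lemma rho_lint (n : ℕ) : ∫⁻ z, ‖(rho n z : ℂ)‖ₑ = 1 := by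
  have h1 := ofReal_integral_eq_lintegral_ofReal ((bmp n).integrable_normed (μ := volume))
    (Eventually.of_forall fun z => (bmp n).nonneg_normed z)
  rw [(bmp n).integral_normed, ENNReal.ofReal_one] at h1
  rw [h1]
  refine lintegral_congr fun z => ?_
  rw [← ofReal_norm, Complex.norm_real, Real.norm_of_nonneg (rho_nn n z)]
  rfl

private lemma mol_sq (n : ℕ) {g : ℂ → ℂ} (hg : AEStronglyMeasurable g volume) (z : ℂ) :
    ‖mol n g z‖ₑ ^ (2 : ℝ) ≤ ∫⁻ y, ‖(rho n (z - y) : ℂ)‖ₑ * ‖g y‖ₑ ^ (2 : ℝ) := by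
  have hr : AEMeasurable (fun y => ‖(rho n (z - y) : ℂ)‖ₑ) volume := by
    refine Continuous.aemeasurable ?_
    have h : Continuous (fun y => (rho n (z - y) : ℂ)) :=
      Complex.continuous_ofReal.comp ((rho_cont n).comp (continuous_const.sub continuous_id))
    exact h.enorm
  have h1 : ‖mol n g z‖ₑ ≤ ∫⁻ y, ‖(rho n (z - y) : ℂ)‖ₑ * ‖g y‖ₑ := by
    unfold mol
    refine (enorm_integral_le_lintegral_enorm _).trans (le_of_eq ?_)
    refine lintegral_congr fun y => ?_
    rw [enorm_mul]
  have h2 := ENNReal.lintegral_mul_norm_pow_le (μ := volume) (p := 1 / 2) (q := 1 / 2) hr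
    (hr.mul (hg.enorm.pow_const (2 : ℝ))) (by norm_num) (by norm_num) (by norm_num)
  have h3 : ∫⁻ y, ‖(rho n (z - y) : ℂ)‖ₑ = 1 := by
    rw [lintegral_sub_left_eq_self (fun y => ‖(rho n y : ℂ)‖ₑ) z]
    exact rho_lint n
  rw [h3, ENNReal.one_rpow, one_mul] at h2
  have h4 : ∫⁻ y, ‖(rho n (z - y) : ℂ)‖ₑ * ‖g y‖ₑ =
      ∫⁻ y, ‖(rho n (z - y) : ℂ)‖ₑ ^ (1 / 2 : ℝ) *
        ((fun y => ‖(rho n (z - y) : ℂ)‖ₑ) * fun y => ‖g y‖ₑ ^ (2 : ℝ)) y ^ (1 / 2 : ℝ) := by
    refine lintegral_congr fun y => ?_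
    simp only [Pi.mul_apply]
    rw [ENNReal.mul_rpow_of_nonneg _ _ (by norm_num), ← mul_assoc, ← ENNReal.rpow_add_of_nonneg _ _
      (by norm_num) (by norm_num), ← ENNReal.rpow_mul]
    norm_num
  rw [← h4] at h2
  have h5 := h1.trans h2
  have h6 := ENNReal.rpow_le_rpow h5 (z := 2) (by norm_num)
  rw [← ENNReal.rpow_mul, show (1 / 2 : ℝ) * 2 = 1 by norm_num, ENNReal.rpow_one] at h6
  exact h6

private lemma mol_l2 (n : ℕ) {g : ℂ → ℂ} (hg : AEStronglyMeasurable g volume) :
    eLpNorm (mol n g) 2 volume ≤ eLpNorm g 2 volume := by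
  rw [eLpNorm_eq_lintegral_rpow_enorm_toReal (by norm_num) (by norm_num),
    eLpNorm_eq_lintegral_rpow_enorm_toReal (by norm_num) (by norm_num)]
  refine ENNReal.rpow_le_rpow ?_ (by positivity)
  simp only [ENNReal.toReal_ofNat]
  calc ∫⁻ z, ‖mol n g z‖ₑ ^ (2 : ℝ)
      ≤ ∫⁻ z, ∫⁻ y, ‖(rho n (z - y) : ℂ)‖ₑ * ‖g y‖ₑ ^ (2 : ℝ) :=
        lintegral_mono fun z => mol_sq n hg z
    _ = ∫⁻ y, ∫⁻ z, ‖(rho n (z - y) : ℂ)‖ₑ * ‖g y‖ₑ ^ (2 : ℝ) := by
        refine lintegral_lintegral_swap ?_
        refine AEMeasurable.mul ?_ ?_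
        · have h : Continuous (fun p : ℂ × ℂ => (rho n (p.1 - p.2) : ℂ)) :=
            Complex.continuous_ofReal.comp ((rho_cont n).comp (continuous_fst.sub continuous_snd))
          exact h.enorm.aemeasurable
        · exact (hg.comp_snd.enorm).pow_const (2 : ℝ)
    _ = ∫⁻ y, ‖g y‖ₑ ^ (2 : ℝ) := by
        refine lintegral_congr fun y => ?_
        rw [lintegral_mul_const' _ _ (by
          refine ENNReal.rpow_ne_top_of_nonneg (by norm_num) enorm_ne_top)]
        rw [lintegral_sub_right_eq_self (fun z => ‖(rho n z : ℂ)‖ₑ) y, rho_lint, one_mul]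

theorem pMO2 (hMO1 : StMO1) : StMO2 := by
  obtain ⟨m1, m2, m3, m4, m5, m6, m7⟩ := hMO1
  have hone : ∀ (n : ℕ) (z : ℂ), mol n (fun _ => (1 : ℂ)) z = 1 := by
    intro n z
    unfold mol
    simp only [mul_one]
    rw [integral_complex_ofReal, integral_sub_left_eq_self (fun y => rho n y) volume z]
    have : ∫ y, rho n y = 1 := (bmp n).integral_normed
    rw [this]
    simp
  have hunif : ∀ g : ℂ → ℂ, Continuous g → HasCompactSupport g → ∀ ε > 0,
      ∀ᶠ n : ℕ in atTop, ∀ z, ‖mol n g z - g z‖ ≤ ε := by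
    intro g hg hgc ε hε
    have huc : UniformContinuous g := hgc.uniformContinuous_of_continuous hg
    obtain ⟨δ, hδ, hd⟩ := Metric.uniformContinuous_iff.1 huc ε hε
    have hlim : Tendsto (fun n : ℕ => 1 / ((n : ℝ) + 1)) atTop (𝓝 0) :=
      tendsto_one_div_add_atTop_nhds_zero_nat
    filter_upwards [hlim.eventually (gt_mem_nhds hδ)] with n hn z
    have e1 : mol n g z - g z = mol n (fun y => g y + (-g z) * 1) z := by
      rw [m6 n g (fun _ => 1) (-g z) z hg.locallyIntegrable (locallyIntegrable_const 1), hone]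
      ring
    classical
    rw [e1, m5 n _ (fun y => if ‖y - z‖ ≤ 1 / ((n : ℝ) + 1) then g y + (-g z) * 1 else 0) z
      (fun y hy => by rw [if_pos hy])]
    refine m3 n _ ε hε.le (fun y => ?_) z
    split_ifs with h
    · have h1 := hd (show dist y z < δ by
        rw [dist_eq_norm]
        exact lt_of_le_of_lt h hn)
      rw [dist_eq_norm] at h1
      rw [mul_one, ← sub_eq_add_neg]
      exact h1.le
    · rw [norm_zero]
      exact hε.le
  refine ⟨?_, ?_⟩
  · intro g hg hgc
    rw [Metric.tendstoUniformly_iff]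
    intro ε hε
    filter_upwards [hunif g hg hgc (ε / 2) (half_pos hε)] with n hn z
    rw [dist_comm, dist_eq_norm]
    have := hn z
    linarith
  · intro g hg
    rw [ENNReal.tendsto_nhds_zero]
    intro ε hε
    have hε3 : ε / 3 ≠ 0 := by
      rw [ne_eq, ENNReal.div_eq_zero_iff, not_or]
      exact ⟨hε.ne', by norm_num⟩
    obtain ⟨h, hc, hgh, hh, hhL⟩ := hg.exists_hasCompactSupport_eLpNorm_sub_le (by norm_num) hε3
    obtain ⟨R, hR⟩ : ∃ R : ℝ, ∀ z, R < ‖z‖ → h z = 0 := by
      obtain ⟨R, hR⟩ := hc.isCompact.isBounded.subset_closedBall (0 : ℂ)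
      refine ⟨R, fun z hz => ?_⟩
      by_contra h0
      have h1 := hR (subset_tsupport _ h0)
      rw [mem_closedBall_zero_iff] at h1
      linarith
    have hvol : (volume (Metric.closedBall (0 : ℂ) (R + 1))) ^ (2 : ℝ≥0∞).toReal⁻¹ ≠ ⊤ :=
      ENNReal.rpow_ne_top_of_nonneg (by positivity) (isCompact_closedBall _ _).measure_lt_top.ne
    obtain ⟨c, hc0, hcε⟩ := ENNReal.exists_nnreal_pos_mul_lt hvol hε3
    have hgl : LocallyIntegrable g volume := hg.locallyIntegrable (by norm_num)
    have hhl : LocallyIntegrable h volume := hh.locallyIntegrable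
    filter_upwards [hunif h hh hc c hc0] with n hn
    have hm : ∀ z, mol n (fun y => g y + (-1) * h y) z = mol n g z + (-1) * mol n h z := fun z =>
      m6 n g h (-1) z hgl hhl
    have mg : Continuous (mol n g) := (m1 n g hgl).1.continuous
    have mh : Continuous (mol n h) := (m1 n h hhl).1.continuous
    have e1 : (fun z => mol n g z - g z) =
        ((fun z => mol n g z + (-1) * mol n h z) + fun z => mol n h z - h z) +
          fun z => h z - g z := by
      funext z
      simp only [Pi.add_apply]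
      ring
    have b1 : eLpNorm (fun z => mol n g z + (-1) * mol n h z) 2 volume ≤ ε / 3 := by
      have e2 : (fun z => mol n g z + (-1) * mol n h z) = mol n (fun y => g y + (-1) * h y) := by
        funext z
        exact (hm z).symm
      rw [e2]
      have e3 : (fun y => g y + (-1) * h y) = g - h := by
        funext y
        simp only [Pi.sub_apply]
        ring
      rw [e3]
      exact (mol_l2 n (hg.aestronglyMeasurable.sub hh.aestronglyMeasurable)).trans hgh
    have b2 : eLpNorm (fun z => mol n h z - h z) 2 volume ≤ ε / 3 := by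
      have hs : Function.support (fun z => mol n h z - h z) ⊆
          Metric.closedBall (0 : ℂ) (R + 1) := by
        intro z hz
        by_contra h0
        rw [mem_closedBall_zero_iff, not_le] at h0
        apply hz
        show mol n h z - h z = 0
        rw [m4 n h R hR z h0, hR z (by linarith), sub_zero]
      rw [← eLpNorm_restrict_eq_of_support_subset hs]
      refine (eLpNorm_le_of_ae_bound (C := (c : ℝ))
        (Eventually.of_forall fun z => hn z)).trans ?_
      rw [Measure.restrict_apply_univ, ENNReal.ofReal_coe_nnreal, mul_comm]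
      exact hcε.le
    have b3 : eLpNorm (fun z => h z - g z) 2 volume ≤ ε / 3 := by
      have e2 : (fun z => h z - g z) = - (g - h) := by
        funext z
        simp
      rw [e2, eLpNorm_neg]
      exact hgh
    rw [e1]
    refine (eLpNorm_add_le ?_ ?_ (by norm_num)).trans ?_
    · exact (mg.add (continuous_const.mul mh)).aestronglyMeasurable.add
        (mh.sub hh).aestronglyMeasurable
    · exact hh.aestronglyMeasurable.sub hg.aestronglyMeasurable
    · refine (add_le_add (eLpNorm_add_le ?_ ?_ (by norm_num)) b3).trans ?_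
      · exact (mg.add (continuous_const.mul mh)).aestronglyMeasurable
      · exact (mh.sub hh).aestronglyMeasurable
      · refine (add_le_add (add_le_add b1 b2) le_rfl).trans ?_
        rw [ENNReal.add_thirds]

end Pool.Agent.Helper45.QCM
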